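import Pool.Agent.H39.RV.Top2

/-!
# MP_a7284e_an, project RV, row W8: the count theorem (backup)
-/

set_option autoImplicit false

namespace Pool.Agent.H39.RV

open Finset Classical
open Pool.Agent.H79.RT Pool.Agent.H79.RU Pool.Agent.H79.RV

variable {n m : ℕ}

theorem pr_mix {i j : ℕ} {α : Type*} {b : Q n → Q m → α} (h : Pr i j b) (x u : Q n) (y v : Q m) :
    b (mix i x u) (mix j y v) = b x y := by
  have h1 : b (mix i x u) (mix j y v) = b x (mix j y v) :=
    (h.1 (mix j y v)).congr fun l hl => by unfold mix; rw [if_pos hl]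
  have h2 : b x (mix j y v) = b x y :=
    (h.2 x).congr fun l hl => by unfold mix; rw [if_pos hl]
  rw [h1, h2]

/-- charged sites -/
def cg (τ : ℕ → ℕ → ℕ) (T : Q n → Q m → ℕ) (κ : ℝ) (i j : ℕ) (x : Q n) (y : Q m) : Prop :=
  κ ≤ |dd τ T i j x y|

/-- the last charged site which is switched on -/
def SS (τ : ℕ → ℕ → ℕ) (T : Q n → Q m → ℕ) (κ : ℝ) (i j : ℕ) (x : Q n) (y : Q m) : Prop :=
  i < n ∧ j < m ∧ cg τ T κ i j x y ∧ τ i j ≤ T x y ∧
    ∀ a < n, ∀ c < m, cg τ T κ a c x y → τ a c ≤ T x y → τ a c ≤ τ i j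

theorem SS_sng {τ : ℕ → ℕ → ℕ} (hτ : Clk τ) (T : Q n → Q m → ℕ) (κ : ℝ) : Sng (SS τ T κ) := by
  refine ⟨fun i j x y h => ⟨h.1, h.2.1⟩, fun i j i' j' x y h1 h2 => ?_⟩
  obtain ⟨a1, a2, a3, a4, a5⟩ := h1
  obtain ⟨b1, b2, b3, b4, b5⟩ := h2
  exact hτ.inj i j i' j' (le_antisymm (b5 i a1 j a2 a3 a4) (a5 i' b1 j' b2 b3 b4))

/-- the last element of a finite set of sites -/
theorem ex_last {n m : ℕ} (P : ℕ → ℕ → Prop) (f : ℕ → ℕ → ℕ) {i j : ℕ} (hi : i < n) (hj : j < m)
    (h : P i j) : ∃ a c, a < n ∧ c < m ∧ P a c ∧ ∀ a' < n, ∀ c' < m, P a' c' → f a' c' ≤ f a c := by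
  have hne : ((range n ×ˢ range m).filter fun p => P p.1 p.2).Nonempty :=
    ⟨(i, j), mem_filter.2 ⟨mem_product.2 ⟨mem_range.2 hi, mem_range.2 hj⟩, h⟩⟩
  obtain ⟨p, hp, hm⟩ := exists_max_image _ (fun p : ℕ × ℕ => f p.1 p.2) hne
  have hp1 := mem_filter.1 hp
  have hp2 := mem_product.1 hp1.1
  refine ⟨p.1, p.2, mem_range.1 hp2.1, mem_range.1 hp2.2, hp1.2, fun a' ha c' hc h' => ?_⟩
  exact hm (a', c') (mem_filter.2 ⟨mem_product.2 ⟨mem_range.2 ha, mem_range.2 hc⟩, h'⟩)

theorem SS_split {τ : ℕ → ℕ → ℕ} (hτ : Clk τ) (T : Q n → Q m → ℕ) (κ : ℝ) {i j : ℕ} (hi : i < n)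
    (hj : j < m) {x : Q n} {y : Q m} (h : cg τ T κ i j x y) :
    ind (τ i j ≤ T x y) =
      ind (∃ a c, SS τ T κ a c x y ∧ τ i j < τ a c) + ind (SS τ T κ i j x y) := by
  have hs := SS_sng hτ T κ
  by_cases ht : τ i j ≤ T x y
  · obtain ⟨p, q, hp, hq, hpq, hm⟩ := ex_last (fun a c => cg τ T κ a c x y ∧ τ a c ≤ T x y) τ
      hi hj ⟨h, ht⟩
    have hS : SS τ T κ p q x y :=
      ⟨hp, hq, hpq.1, hpq.2, fun a ha c hc h1 h2 => hm a ha c hc ⟨h1, h2⟩⟩
    have hle : τ i j ≤ τ p q := hS.2.2.2.2 i hi j hj h ht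
    rcases hle.eq_or_lt with h1 | h1
    · obtain ⟨e1, e2⟩ := hτ.inj i j p q h1
      have hS' : SS τ T κ i j x y := by
        rw [e1, e2]
        exact hS
      rw [ind_t ht, ind_t hS', ind_f (show ¬∃ a c, SS τ T κ a c x y ∧ τ i j < τ a c from ?_)]
      · ring
      · rintro ⟨a, c, h2, h3⟩
        obtain ⟨e3, e4⟩ := hs.2 a c i j x y h2 hS'
        rw [e3, e4] at h3
        exact lt_irrefl _ h3
    · rw [ind_t ht, ind_t (show ∃ a c, SS τ T κ a c x y ∧ τ i j < τ a c from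
        ⟨p, q, hS, h1⟩), ind_f (show ¬SS τ T κ i j x y from ?_)]
      · ring
      · intro h2
        obtain ⟨e3, e4⟩ := hs.2 i j p q x y h2 hS
        rw [← e3, ← e4] at h1
        exact lt_irrefl _ h1
  · rw [ind_f ht, ind_f (show ¬∃ a c, SS τ T κ a c x y ∧ τ i j < τ a c from ?_),
      ind_f (show ¬SS τ T κ i j x y from fun h2 => ht h2.2.2.2.1)]
    · ring
    · rintro ⟨a, c, h2, h3⟩
      exact ht (h3.le.trans h2.2.2.2.1)

theorem sup_nn (T : Q n → Q m → ℕ) : 0 ≤ sup0 T := by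
  unfold sup0
  exact av2_nonneg fun x y => ind_nn _

theorem cnt_SS {τ : ℕ → ℕ → ℕ} (hτ : Clk τ) (T : Q n → Q m → ℕ) (κ : ℝ) :
    cnt (SS τ T κ) ≤ sup0 T := by
  have hs := SS_sng hτ T κ
  have e : cnt (SS τ T κ) = av2 fun x y =>
      ∑ i ∈ range n, ∑ j ∈ range m, ind (SS τ T κ i j x y) := by
    unfold cnt
    rw [av2_sum]
    refine sum_congr rfl fun i _ => ?_
    rw [av2_sum]
  rw [e]
  unfold sup0
  refine av2_mono fun x y => ?_
  by_cases h : ∃ a c, SS τ T κ a c x y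
  · obtain ⟨a, c, h⟩ := h
    have h1 : 0 < T x y := lt_of_lt_of_le (hτ.pos a c) h.2.2.2.1
    rw [ind_t h1]
    have h2 : ∀ i j, ind (SS τ T κ i j x y) = if i = a then (if j = c then 1 else 0) else 0 := by
      intro i j
      by_cases h3 : SS τ T κ i j x y
      · obtain ⟨e1, e2⟩ := hs.2 i j a c x y h3 h
        rw [ind_t h3, if_pos e1, if_pos e2]
      · rw [ind_f h3]
        split_ifs with h4 h5
        · exact absurd (by rw [h4, h5]; exact h) h3
        · rfl
        · rfl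
    simp only [h2]
    rw [sum_eq_single a]
    · have h3 : ∑ j ∈ range m, (if a = a then (if j = c then (1 : ℝ) else 0) else 0) =
          ∑ j ∈ range m, if j = c then (1 : ℝ) else 0 := sum_congr rfl fun j _ => if_pos rfl
      rw [h3, sum_ite_eq']
      split_ifs <;> norm_num
    · intro i _ hi
      exact sum_eq_zero fun j _ => if_neg hi
    · intro ha
      exact absurd (mem_range.2 h.1) ha
  · have h2 : ∀ i j, ind (SS τ T κ i j x y) = 0 := fun i j => ind_f fun h3 => h ⟨i, j, h3⟩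
    simp only [h2]
    simp only [sum_const_zero]
    exact ind_nn _

theorem nml {a s : ℝ} (ha : 0 ≤ a) (hs : 0 < s) :
    Real.negMulLog a ≤ Real.log (1 / s) * a + s := by
  rcases ha.eq_or_lt with h | h
  · rw [← h]
    simp
    exact hs.le
  · have h1 := Real.log_le_sub_one_of_pos (div_pos hs h)
    rw [Real.log_div hs.ne' h.ne'] at h1
    have h2 : a * (Real.log s - Real.log a) ≤ a * (s / a - 1) :=
      mul_le_mul_of_nonneg_left h1 h.le
    have h3 : a * (s / a - 1) = s - a := by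
      field_simp
    rw [h3] at h2
    unfold Real.negMulLog
    rw [one_div, Real.log_inv]
    linarith

theorem sum_mm (h0 : SC2) (S : ℕ → ℕ → Q n → Q m → Prop) :
    ∑ i ∈ range n, ∑ j ∈ range m, av2 (mm S i j) = cnt S := by
  unfold cnt
  refine sum_congr rfl fun i _ => sum_congr rfl fun j _ => ?_
  have h := (h0 n m i j).2.1 (fun x y => ind (S i j x y)) (fun _ _ => 1)
    ⟨fun y l _ x => rfl, fun x l _ y => rfl⟩
  simp only [mul_one] at h
  exact h

theorem pr_comp {i j : ℕ} {α β : Type*} {F : Q n → Q m → α} (h : Pr i j F) (φ : α → β) :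
    Pr i j fun x y => φ (F x y) := by
  refine ⟨fun y l hl x => ?_, fun x l hl y => ?_⟩
  · exact congrArg φ (h.1 y l hl x)
  · exact congrArg φ (h.2 x l hl y)

theorem pr_comp2 {i j : ℕ} {α β γ : Type*} {F : Q n → Q m → α} {G : Q n → Q m → β}
    (hF : Pr i j F) (hG : Pr i j G) (φ : α → β → γ) : Pr i j fun x y => φ (F x y) (G x y) := by
  refine ⟨fun y l hl x => ?_, fun x l hl y => ?_⟩
  · exact congrArg₂ φ (hF.1 y l hl x) (hG.1 y l hl x)
  · exact congrArg₂ φ (hF.2 x l hl y) (hG.2 x l hl y)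

theorem abs_sg {k : ℕ} (i : ℕ) (x : Q k) : |sg i x| ≤ 1 := by
  unfold sg
  split_ifs <;> simp

/-- the entropy bound -/
theorem ent_le (h0 : SC2) (S c : ℕ → ℕ → Q n → Q m → Prop) (hc : ∀ i j, Pr i j (c i j))
    (hS : ∀ i j x y, S i j x y → c i j x y) {s : ℝ} (hs : 0 < s) :
    ent' S ≤ Real.log (1 / s) * cnt S + s * cnt c := by
  rw [← sum_mm h0 S]
  unfold ent' cnt
  rw [mul_sum, mul_sum, ← sum_add_distrib]
  refine sum_le_sum fun i _ => ?_
  rw [mul_sum, mul_sum, ← sum_add_distrib]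
  refine sum_le_sum fun j _ => ?_
  rw [← av2_mul_left, ← av2_mul_left, ← av2_add]
  refine av2_mono fun x y => ?_
  by_cases h : c i j x y
  · rw [ind_t h]
    have := nml (mm_nn S i j x y) hs
    linarith
  · have h1 : mm S i j x y = 0 := by
      refine le_antisymm ?_ (mm_nn S i j x y)
      have h2 : mm S i j x y ≤ c2 i j (fun x y => ind (c i j x y)) x y := by
        refine (h0 n m i j).2.2.1 _ _ (fun x y => ?_) x y
        by_cases h3 : S i j x y
        · rw [ind_t h3, ind_t (hS i j x y h3)]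
        · rw [ind_f h3]
          exact ind_nn _
      have h3 : c2 i j (fun x y => ind (c i j x y)) x y = 0 := by
        unfold c2
        have : ∀ (u : Q n) (v : Q m), ind (c i j (mix i x u) (mix j y v)) = 0 := by
          intro u v
          rw [pr_mix (hc i j)]
          exact ind_f h
        simp only [this]
        exact av2_const 0
      linarith
    rw [h1, ind_f h, Real.negMulLog_zero]
    simp

/-- the energy bound -/
theorem nrg_le (h0 : SC2) {C : ℝ} (hC : 0 ≤ C) {τ : ℕ → ℕ → ℕ} (hτ : Clk τ) (T : Q n → Q m → ℕ)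
    {κ : ℝ} (hκ : 0 < κ)
    (h6 : ∀ b : ℕ → ℕ → Q n → Q m → ℝ, (∀ i j, Pr i j (b i j)) →
      pair b (fun i j x y => ∃ a c, SS τ T κ a c x y ∧ τ i j < τ a c) ^ 2 ≤
        C * (cnt (SS τ T κ) + ent' (SS τ T κ)) * nrg b) :
    κ ^ 2 * cnt (cg τ T κ) ≤ (2 * C + 2) * (cnt (SS τ T κ) + ent' (SS τ T κ)) := by
  set S : ℕ → ℕ → Q n → Q m → Prop := SS τ T κ with hS
  set Z : ℕ → ℕ → Q n → Q m → Prop := fun i j x y => ∃ a c, S a c x y ∧ τ i j < τ a c with hZ
  set F₁ : ℕ → ℕ → Q n → Q m → ℝ := fun i j x y => sg i x * sg j y * ind (Z i j x y) with hF₁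
  set F₂ : ℕ → ℕ → Q n → Q m → ℝ := fun i j x y => sg i x * sg j y * ind (S i j x y) with hF₂
  have pdd : ∀ i j, Pr i j (dd τ T i j : Q n → Q m → ℝ) := fun i j => (h0 n m i j).1 _
  have pc : ∀ i j, Pr i j (cg τ T κ i j : Q n → Q m → Prop) := fun i j =>
    pr_comp (pdd i j) fun t => κ ≤ |t|
  have p1 : ∀ i j, Pr i j (c2 i j (F₁ i j)) := fun i j => (h0 n m i j).1 _
  set b : ℕ → ℕ → Q n → Q m → ℝ := fun i j x y => ind (cg τ T κ i j x y) * c2 i j (F₁ i j) x y
    with hb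
  have pb : ∀ i j, Pr i j (b i j) := fun i j =>
    pr_comp2 (pc i j) (p1 i j) fun s t => ind s * t
  have hpair : pair b Z = nrg b := by
    unfold pair nrg
    refine sum_congr rfl fun i _ => sum_congr rfl fun j _ => ?_
    have h := (h0 n m i j).2.1 (F₁ i j) (b i j) (pb i j)
    have h1 : (fun x y => b i j x y ^ 2) = fun x y => c2 i j (F₁ i j) x y * b i j x y := by
      funext x y
      rw [hb]
      show (ind (cg τ T κ i j x y) * c2 i j (F₁ i j) x y) ^ 2 =
        c2 i j (F₁ i j) x y * (ind (cg τ T κ i j x y) * c2 i j (F₁ i j) x y)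
      by_cases hc : cg τ T κ i j x y
      · rw [ind_t hc]; ring
      · rw [ind_f hc]; ring
    rw [h1, h]
    congr 1
    funext x y
    rw [hF₁]
    show sg i x * sg j y * b i j x y * ind (Z i j x y) =
      sg i x * sg j y * ind (Z i j x y) * b i j x y
    ring
  have hn0 := nrg_nn b
  have hcs : 0 ≤ cnt S + ent' S := add_nonneg (cnt_nn S) (ent_nn S)
  have hnb : nrg b ≤ C * (cnt S + ent' S) := by
    have h := h6 b pb
    rw [hpair] at h
    rcases hn0.eq_or_lt with h1 | h1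
    · rw [← h1]
      exact mul_nonneg hC hcs
    · rw [sq] at h
      exact le_of_mul_le_mul_right h h1
  -- the pointwise estimate
  have hpt : κ ^ 2 * cnt (cg τ T κ) ≤ 2 * nrg b + 2 * cnt S := by
    rw [← sum_mm h0 S]
    unfold cnt nrg
    rw [mul_sum, mul_sum, mul_sum, ← sum_add_distrib]
    refine sum_le_sum fun i hi => ?_
    rw [mul_sum, mul_sum, mul_sum, ← sum_add_distrib]
    refine sum_le_sum fun j hj => ?_
    rw [mem_range] at hi hj
    rw [← av2_mul_left, ← av2_mul_left, ← av2_mul_left, ← av2_add]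
    refine av2_mono fun x y => ?_
    rw [hb]
    show κ ^ 2 * ind (cg τ T κ i j x y) ≤
      2 * (ind (cg τ T κ i j x y) * c2 i j (F₁ i j) x y) ^ 2 + 2 * mm S i j x y
    by_cases hc : cg τ T κ i j x y
    · rw [ind_t hc]
      have h1 : dd τ T i j x y = c2 i j (F₁ i j) x y + c2 i j (F₂ i j) x y := by
        rw [← (h0 n m i j).2.2.2.1 (F₁ i j) (F₂ i j) x y]
        unfold dd c2
        congr 1
        funext u v
        have hcm : cg τ T κ i j (mix i x u) (mix j y v) := by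
          rw [pr_mix (pc i j)]
          exact hc
        rw [hF₁, hF₂]
        show sg i (mix i x u) * sg j (mix j y v) * ind (τ i j ≤ T (mix i x u) (mix j y v)) =
          sg i (mix i x u) * sg j (mix j y v) * ind (Z i j (mix i x u) (mix j y v)) +
          sg i (mix i x u) * sg j (mix j y v) * ind (S i j (mix i x u) (mix j y v))
        rw [SS_split hτ T κ hi hj hcm]
        ring
      have h2 : |c2 i j (F₂ i j) x y| ≤ mm S i j x y := by
        refine ((h0 n m i j).2.2.2.2 (F₂ i j) x y).trans ?_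
        refine (h0 n m i j).2.2.1 _ _ (fun x y => ?_) x y
        rw [hF₂]
        show |sg i x * sg j y * ind (S i j x y)| ≤ ind (S i j x y)
        rw [abs_mul, abs_mul, abs_of_nonneg (ind_nn _)]
        exact mul_le_of_le_one_left (ind_nn _)
          (mul_le_one₀ (abs_sg i x) (abs_nonneg _) (abs_sg j y))
      have h3 : c2 i j (F₂ i j) x y ^ 2 ≤ mm S i j x y := by
        have h4 := mm_nn S i j x y
        have h5 := mm_le S i j x y
        have h6 : c2 i j (F₂ i j) x y ^ 2 ≤ mm S i j x y ^ 2 := by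
          rw [← sq_abs]
          exact pow_le_pow_left₀ (abs_nonneg _) h2 2
        nlinarith
      have h4 : κ ^ 2 ≤ dd τ T i j x y ^ 2 := by
        rw [← sq_abs (dd τ T i j x y)]
        exact pow_le_pow_left₀ hκ.le hc 2
      rw [h1] at h4
      nlinarith [sq_nonneg (c2 i j (F₁ i j) x y - c2 i j (F₂ i j) x y)]
    · rw [ind_f hc]
      have h4 := mm_nn S i j x y
      nlinarith
  have h7 := cnt_nn S
  have h8 := ent_nn S
  nlinarith

/-- W8 -/
theorem count2 (h0 : SC2) (h6 : STop2) : SCount2 := by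
  obtain ⟨C, hC, h6⟩ := h6
  intro r hr
  set B : ℝ := 2 * C + 2 with hB
  have hB2 : 2 ≤ B := by rw [hB]; linarith
  have hlogB : 0 ≤ Real.log (2 * B) := Real.log_nonneg (by linarith)
  have hr2 : 0 < r - 2 := by linarith
  refine ⟨2 * B * (1 + Real.log (2 * B) + 2 / (r - 2)), by positivity, ?_⟩
  intro n m τ T κ hτ hκ hκ1
  have h7 := nrg_le h0 hC hτ T hκ fun b hb => h6 n m τ (SS τ T κ) b hτ (SS_sng hτ T κ) hb
  have h8 := cnt_SS hτ T κ
  have hs0 : (0 : ℝ) < κ ^ 2 / (2 * B) := by positivity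
  have hs1 : κ ^ 2 / (2 * B) ≤ 1 := by
    rw [div_le_one (by linarith)]
    nlinarith
  have pc : ∀ i j, Pr i j (cg τ T κ i j : Q n → Q m → Prop) := fun i j =>
    pr_comp ((h0 n m i j).1 _) fun t => κ ≤ |t|
  have h9 := ent_le h0 (SS τ T κ) (cg τ T κ) pc (fun i j x y h => h.2.2.1) hs0
  have hsup := sup_nn T
  have hc0 := cnt_nn (cg τ T κ)
  have hS0 := cnt_nn (SS τ T κ)
  set A := cnt (cg τ T κ) with hA
  have hlog0 : 0 ≤ Real.log (1 / (κ ^ 2 / (2 * B))) :=
    Real.log_nonneg (by rw [le_div_iff₀ hs0]; linarith)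
  have h10 : κ ^ 2 * A ≤ B * (sup0 T + (Real.log (1 / (κ ^ 2 / (2 * B))) * sup0 T +
      κ ^ 2 / (2 * B) * A)) := by
    refine h7.trans (mul_le_mul_of_nonneg_left ?_ (by linarith))
    refine add_le_add h8 (h9.trans (add_le_add ?_ le_rfl))
    exact mul_le_mul_of_nonneg_left h8 hlog0
  have h11 : B * (κ ^ 2 / (2 * B) * A) = κ ^ 2 * A / 2 := by
    have : B ≠ 0 := by linarith
    field_simp
  have h12 : κ ^ 2 * A ≤ 2 * B * (1 + Real.log (1 / (κ ^ 2 / (2 * B)))) * sup0 T := by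
    have e : B * (sup0 T + (Real.log (1 / (κ ^ 2 / (2 * B))) * sup0 T +
        κ ^ 2 / (2 * B) * A)) = B * (1 + Real.log (1 / (κ ^ 2 / (2 * B)))) * sup0 T +
        B * (κ ^ 2 / (2 * B) * A) := by ring
    rw [e, h11] at h10
    linarith
  have h13 : Real.log (1 / (κ ^ 2 / (2 * B))) = Real.log (2 * B) + 2 * Real.log (1 / κ) := by
    rw [one_div_div, Real.log_div (by linarith) (by positivity), Real.log_pow, one_div,
      Real.log_inv]
    push_cast
    ring
  have h14 : Real.log (1 / κ) ≤ (1 / κ) ^ (r - 2) / (r - 2) :=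
    Real.log_le_rpow_div (by positivity) hr2
  have h15 : (1 : ℝ) ≤ (1 / κ) ^ (r - 2) :=
    Real.one_le_rpow (by rw [le_div_iff₀ hκ]; linarith) hr2.le
  have h16 : 1 + Real.log (1 / (κ ^ 2 / (2 * B))) ≤
      (1 + Real.log (2 * B) + 2 / (r - 2)) * (1 / κ) ^ (r - 2) := by
    rw [h13]
    have e : (1 + Real.log (2 * B) + 2 / (r - 2)) * (1 / κ) ^ (r - 2) =
        (1 + Real.log (2 * B)) * (1 / κ) ^ (r - 2) + 2 * ((1 / κ) ^ (r - 2) / (r - 2)) := by ring
    rw [e]
    have : 1 + Real.log (2 * B) ≤ (1 + Real.log (2 * B)) * (1 / κ) ^ (r - 2) :=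
      le_mul_of_one_le_right (by linarith) h15
    linarith
  have h17 : κ ^ 2 * A ≤ 2 * B * ((1 + Real.log (2 * B) + 2 / (r - 2)) * (1 / κ) ^ (r - 2)) *
      sup0 T := by
    refine h12.trans (mul_le_mul_of_nonneg_right ?_ hsup)
    exact mul_le_mul_of_nonneg_left h16 (by linarith)
  have h18 : (1 / κ) ^ (r - 2) = κ ^ 2 / κ ^ r := by
    rw [one_div, Real.inv_rpow hκ.le, Real.rpow_sub hκ, inv_div, Real.rpow_two]
  rw [h18] at h17
  have hκr : 0 < κ ^ r := Real.rpow_pos_of_pos hκ r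
  have h19 : κ ^ 2 * A ≤ κ ^ 2 * (2 * B * (1 + Real.log (2 * B) + 2 / (r - 2)) / κ ^ r *
      sup0 T) := by
    refine h17.trans (le_of_eq ?_)
    ring
  exact le_of_mul_le_mul_left h19 (by positivity)

end Pool.Agent.H39.RV
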