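import Pool.Agent.H79.RV.Stm
import Pool.Agent.H79.RT.Basic

/-!
# MP_a7284e_an, project RV, row W6: all sites before the chosen site (backup)
-/

set_option autoImplicit false

namespace Pool.Agent.H39.RV

open Finset Classical
open Pool.Agent.H79.RT Pool.Agent.H79.RU Pool.Agent.H79.RV

theorem ind_t {p : Prop} (h : p) : ind p = 1 := by
  unfold ind
  rw [if_pos h]

theorem ind_f {p : Prop} (h : ¬p) : ind p = 0 := by
  unfold ind
  rw [if_neg h]

theorem ind_nn (p : Prop) : 0 ≤ ind p := by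
  by_cases h : p
  · rw [ind_t h]; norm_num
  · rw [ind_f h]

theorem ind_le_one (p : Prop) : ind p ≤ 1 := by
  by_cases h : p
  · rw [ind_t h]
  · rw [ind_f h]; norm_num

variable {n m : ℕ}

theorem cnt_nn (μ : ℕ → ℕ → Q n → Q m → Prop) : 0 ≤ cnt μ := by
  unfold cnt
  exact sum_nonneg fun i _ => sum_nonneg fun j _ => av2_nonneg fun x y => ind_nn _

theorem nrg_nn (b : ℕ → ℕ → Q n → Q m → ℝ) : 0 ≤ nrg b := by
  unfold nrg
  exact sum_nonneg fun i _ => sum_nonneg fun j _ => av2_nonneg fun x y => sq_nonneg _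

theorem mm_nn (S : ℕ → ℕ → Q n → Q m → Prop) (i j : ℕ) (x : Q n) (y : Q m) :
    0 ≤ mm S i j x y := by
  unfold mm c2
  exact av2_nonneg fun u v => ind_nn _

theorem mm_le (S : ℕ → ℕ → Q n → Q m → Prop) (i j : ℕ) (x : Q n) (y : Q m) :
    mm S i j x y ≤ 1 := by
  unfold mm c2
  rw [← av2_const (n := n) (m := m) (1 : ℝ)]
  exact av2_mono fun u v => ind_le_one _

theorem ent_nn (S : ℕ → ℕ → Q n → Q m → Prop) : 0 ≤ ent' S := by
  unfold ent'
  exact sum_nonneg fun i _ => sum_nonneg fun j _ => av2_nonneg fun x y =>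
    Real.negMulLog_nonneg (mm_nn S i j x y) (mm_le S i j x y)

/-- transposition -/
def tr {α : Type*} (b : ℕ → ℕ → Q n → Q m → α) : ℕ → ℕ → Q m → Q n → α := fun i j y x => b j i x y

theorem sum_tr (f : ℕ → ℕ → Q n → Q m → ℝ) :
    ∑ i ∈ range m, ∑ j ∈ range n, av2 (fun y x => tr f i j y x) =
      ∑ i ∈ range n, ∑ j ∈ range m, av2 fun x y => f i j x y := by
  rw [sum_comm]
  refine sum_congr rfl fun i _ => sum_congr rfl fun j _ => ?_
  rw [av2_swap]
  rfl

theorem cnt_tr (S : ℕ → ℕ → Q n → Q m → Prop) : cnt (tr S) = cnt S := by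
  unfold cnt
  rw [← sum_tr]
  rfl

theorem nrg_tr (b : ℕ → ℕ → Q n → Q m → ℝ) : nrg (tr b) = nrg b := by
  unfold nrg
  rw [← sum_tr]
  rfl

theorem mm_tr (S : ℕ → ℕ → Q n → Q m → Prop) (i j : ℕ) (y : Q m) (x : Q n) :
    mm (tr S) i j y x = mm S j i x y := by
  unfold mm c2
  rw [av2_swap]
  rfl

theorem ent_tr (S : ℕ → ℕ → Q n → Q m → Prop) : ent' (tr S) = ent' S := by
  unfold ent'
  rw [← sum_tr (fun i j x y => Real.negMulLog (mm S i j x y))]
  refine sum_congr rfl fun i _ => sum_congr rfl fun j _ => ?_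
  congr 1
  funext y x
  rw [mm_tr]
  rfl

theorem pair_tr (b : ℕ → ℕ → Q n → Q m → ℝ) (Z : ℕ → ℕ → Q n → Q m → Prop) :
    pair (tr b) (tr Z) = pair b Z := by
  unfold pair
  rw [← sum_tr]
  refine sum_congr rfl fun i _ => sum_congr rfl fun j _ => ?_
  congr 1
  funext y x
  unfold tr
  ring

theorem sng_tr {S : ℕ → ℕ → Q n → Q m → Prop} (h : Sng S) : Sng (tr S) := by
  refine ⟨fun i j y x hs => ?_, fun i j i' j' y x h1 h2 => ?_⟩
  · have := h.1 j i x y hs
    exact ⟨this.2, this.1⟩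
  · have := h.2 j i j' i' x y h1 h2
    exact ⟨this.2, this.1⟩

theorem pr_tr {i j : ℕ} {b : ℕ → ℕ → Q n → Q m → ℝ} (h : ∀ i j, Pr i j (b i j)) :
    Pr i j (tr b i j) := by
  refine ⟨fun x l hl y => ?_, fun y l hl x => ?_⟩
  · exact (h j i).2 x l hl y
  · exact (h j i).1 y l hl x

theorem clk_tr {τ : ℕ → ℕ → ℕ} (h : Clk τ) : Clk fun i j => τ j i := by
  refine ⟨fun i j => h.pos j i, fun i i' j hi => h.mj j i i' hi, fun i j j' hj => h.mi j j' i hj,
    fun i j i' j' he => ?_⟩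
  have := h.inj j i j' i' he
  exact ⟨this.2, this.1⟩

theorem pair_add {b : ℕ → ℕ → Q n → Q m → ℝ} {Z X Y W : ℕ → ℕ → Q n → Q m → Prop}
    (h : ∀ i j x y, ind (Z i j x y) = ind (X i j x y) + ind (Y i j x y) + ind (W i j x y)) :
    pair b Z = pair b X + pair b Y + pair b W := by
  unfold pair
  rw [← sum_add_distrib, ← sum_add_distrib]
  refine sum_congr rfl fun i _ => ?_
  rw [← sum_add_distrib, ← sum_add_distrib]
  refine sum_congr rfl fun j _ => ?_
  rw [← av2_add, ← av2_add]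
  congr 1
  funext x y
  rw [h i j x y]
  ring

/-- W6 -/
theorem top2 (h4 : SLeft2) (h5 : SDeep2) : STop2 := by
  obtain ⟨C, hC, h4⟩ := h4
  obtain ⟨D, hD, h5⟩ := h5
  refine ⟨3 * (C + C + D), by positivity, ?_⟩
  intro n m τ S b hτ hS hb
  set Z : ℕ → ℕ → Q n → Q m → Prop := fun i j x y => ∃ a c, S a c x y ∧ τ i j < τ a c with hZ
  set X : ℕ → ℕ → Q n → Q m → Prop :=
    fun i j x y => ∃ a c, S a c x y ∧ a < i ∧ τ i j < τ a c with hX
  set Y : ℕ → ℕ → Q n → Q m → Prop :=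
    fun i j x y => ∃ a c, S a c x y ∧ c < j ∧ τ i j < τ a c with hY
  set W : ℕ → ℕ → Q n → Q m → Prop :=
    fun i j x y => ∃ a c, S a c x y ∧ i ≤ a ∧ j ≤ c ∧ τ i j < τ a c with hW
  have hsum : pair b Z = pair b X + pair b Y + pair b W := by
    refine pair_add fun i j x y => ?_
    by_cases hz : Z i j x y
    · obtain ⟨a, c, hs, ht⟩ := hz
      have hno : ¬(a < i ∧ c < j) := by
        rintro ⟨h1, h2⟩
        have h3 := hτ.mi a i c h1
        have h4 := hτ.mj i c j h2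
        omega
      have huniq : ∀ a' c', S a' c' x y → a' = a ∧ c' = c := fun a' c' h' =>
        hS.2 a' c' a c x y h' hs
      rw [ind_t (show Z i j x y from ⟨a, c, hs, ht⟩)]
      by_cases h1 : a < i
      · rw [ind_t (show X i j x y from ⟨a, c, hs, h1, ht⟩), ind_f (show ¬Y i j x y from ?_),
          ind_f (show ¬W i j x y from ?_)]
        · ring
        · rintro ⟨a', c', h', h2, _⟩
          obtain ⟨e1, e2⟩ := huniq a' c' h'
          omega
        · rintro ⟨a', c', h', h2, _⟩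
          obtain ⟨e1, e2⟩ := huniq a' c' h'
          exact hno ⟨h1, by omega⟩
      · have hx : ¬X i j x y := by
          rintro ⟨a', c', h', h2, _⟩
          obtain ⟨e1, e2⟩ := huniq a' c' h'
          omega
        by_cases h2 : c < j
        · rw [ind_f hx, ind_t (show Y i j x y from ⟨a, c, hs, h2, ht⟩),
            ind_f (show ¬W i j x y from ?_)]
          · ring
          · rintro ⟨a', c', h', _, h3, _⟩
            obtain ⟨e1, e2⟩ := huniq a' c' h'
            omega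
        · rw [ind_f hx, ind_f (show ¬Y i j x y from ?_),
            ind_t (show W i j x y from ⟨a, c, hs, not_lt.1 h1, not_lt.1 h2, ht⟩)]
          · ring
          · rintro ⟨a', c', h', h3, _⟩
            obtain ⟨e1, e2⟩ := huniq a' c' h'
            omega
    · have h1 : ¬X i j x y := fun ⟨a, c, h, _, h'⟩ => hz ⟨a, c, h, h'⟩
      have h2 : ¬Y i j x y := fun ⟨a, c, h, _, h'⟩ => hz ⟨a, c, h, h'⟩
      have h3 : ¬W i j x y := fun ⟨a, c, h, _, _, h'⟩ => hz ⟨a, c, h, h'⟩
      rw [ind_f hz, ind_f h1, ind_f h2, ind_f h3]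
      ring
  have e0 := ent_nn S
  have c0 := cnt_nn S
  have n0 := nrg_nn b
  have k1 : pair b X ^ 2 ≤ C * (cnt S + ent' S) * nrg b := h4 n m τ S b hτ hS hb
  have k2 : pair b Y ^ 2 ≤ C * (cnt S + ent' S) * nrg b := by
    have h := h4 m n (fun i j => τ j i) (tr S) (tr b) (clk_tr hτ) (sng_tr hS)
      (fun i j => pr_tr hb)
    rw [cnt_tr, ent_tr, nrg_tr] at h
    have h' : pair (tr b) (fun i j y x => ∃ a c, tr S a c y x ∧ a < i ∧ τ j i < τ c a) =
        pair b Y := by
      rw [← pair_tr b Y]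
      congr 1
      funext i j y x
      refine propext ⟨?_, ?_⟩
      · rintro ⟨a, c, h1, h2, h3⟩
        exact ⟨c, a, h1, h2, h3⟩
      · rintro ⟨a, c, h1, h2, h3⟩
        exact ⟨c, a, h1, h2, h3⟩
    rw [h'] at h
    exact h
  have k3 : pair b W ^ 2 ≤ D * (cnt S + ent' S) * nrg b := by
    refine (h5 n m τ S b hτ hS hb).trans ?_
    refine mul_le_mul_of_nonneg_right ?_ n0
    exact mul_le_mul_of_nonneg_left (by linarith) hD
  show pair b Z ^ 2 ≤ _
  rw [hsum]
  have k4 : (pair b X + pair b Y + pair b W) ^ 2 ≤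
      3 * (pair b X ^ 2 + pair b Y ^ 2 + pair b W ^ 2) := by
    nlinarith [sq_nonneg (pair b X - pair b Y), sq_nonneg (pair b Y - pair b W),
      sq_nonneg (pair b X - pair b W)]
  refine k4.trans ?_
  nlinarith [k1, k2, k3]

end Pool.Agent.H39.RV
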